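import Pool.Agent.Work.MP_db9399_xf_helper62.XFrame
import Pool.Agent.Work.MP_db9399_ox.Interface
import Pool.Agent.Work.MP_db9399_clj_helper75.Defs

/-!
# MP_db9399: the statement of TSPLIT (frame: helper2; owner helper6)

Input: pieces without labels (`PcD`). Output: labels (`PcX` for `X'`, equal to `X` up to the labels
`pt`, `th` and the sides of the types N, K) and the graphs `H κ` of the six palette classes. See
FRAME.md, 3.2.
-/

set_option autoImplicit false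

namespace Pool.Agent.Work.MP_db9399_iv

open Finset Classical
open Pool.Agent.Work.MP_db9399_all (nb)
open Pool.Agent.Work.MP_db9399_da
open Pool.Agent.Work.MP_db9399_xf
open Pool.Agent.Work.MP_db9399_ox (sdg)
open Pool.Agent.Work.MP_db9399_clj.helper75 (Blx Shr)

universe u

/-- the six palette classes -/
inductive Cx : Type u where
  | C (j : Fin 3)
  | Q (i : Bool)
  | R

noncomputable instance : Fintype Cx.{u} where
  elems := (univ.map ⟨Cx.C, fun _ _ h => by injection h⟩) ∪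
    (univ.map ⟨Cx.Q, fun _ _ h => by injection h⟩) ∪ {Cx.R}
  complete := by
    rintro (j | i | _)
    · simp
    · simp
    · simp

/-- nodes (piece, part) and blocks (piece, side), before lifting -/
abbrev NI (N : ℕ) : Type u := ULift.{u} (Fin N × Bool)

section defs

variable {V : Type u} {N J : ℕ}

/-- the vertices of which all edges are real in the machine: `V0` and the heavy members of the
pieces of type K -/
def InO (X : XD V N J) (v : V) : Prop := v ∈ X.P.V0 ∨ v ∈ X.Hv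

noncomputable def OV [Fintype V] (X : XD V N J) : Finset V := univ.filter (InO X)

/-- the bulk edges between light vertices; all other edges are real edges of the classes -/
def Bkx (G : SimpleGraph V) (X : XD V N J) : SimpleGraph V where
  Adj v w := (bulk G X.P).Adj v w ∧ ¬ InO X v ∧ ¬ InO X w
  symm := ⟨fun _ _ h => ⟨h.1.symm, h.2.2, h.2.1⟩⟩
  loopless := ⟨fun v h => (bulk G X.P).loopless.irrefl v h.1⟩

/-- blocks: the sides of the pieces of type B, the other nonempty pieces as a whole -/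
def BX (X : XD V N J) : Type u :=
  ULift.{u} {b : Fin N × Bool // X.P.ty b.1 ≠ Ty.E ∧ (X.P.ty b.1 = Ty.B ∨ b.2 = false)}

noncomputable instance (X : XD V N J) : Fintype (BX X) := by
  unfold BX
  infer_instance

/-- the block of the side `s` of the piece `n` -/
noncomputable def bx (X : XD V N J) (n : Fin N) (s : Bool) : Option (BX X) :=
  if hE : X.P.ty n ≠ Ty.E then
    some (if h : X.P.ty n = Ty.B then ⟨⟨(n, s), hE, Or.inl h⟩⟩ else ⟨⟨(n, false), hE, Or.inr rfl⟩⟩)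
  else none

noncomputable def blx (X : XD V N J) (v : V) : Option (BX X) :=
  if InO X v then none else bx X (X.P.pc v) (X.P.sd v)

noncomputable def opx (X : XD V N J) (b : BX X) : BX X :=
  if h : X.P.ty b.down.1.1 = Ty.B then ⟨⟨(b.down.1.1, !b.down.1.2), b.down.2.1, Or.inl h⟩⟩ else b

/-- the node (piece, part) is used in the class `κ`: both parts for the types N, B, except the part
`i` in the class `Q i`; one node for the other types -/
def usd (X : XD V N J) (κ : Cx.{u}) (n : Fin N) (l : Bool) : Prop :=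
  ((X.P.ty n = Ty.N ∨ X.P.ty n = Ty.B) ∧ κ ≠ Cx.Q l) ∨
    (X.P.ty n ≠ Ty.N ∧ X.P.ty n ≠ Ty.B ∧ l = false)

/-- the part of `v` as the name of a node -/
noncomputable def ptx (X : XD V N J) (v : V) : Bool :=
  if X.P.ty (X.P.pc v) = Ty.N ∨ X.P.ty (X.P.pc v) = Ty.B then X.P.pt v else false

/-- the node of `v` in the class `κ`: none for the vertices of `O` and for those whose label forbids
the class -/
noncomputable def ndx (X : XD V N J) (κ : Cx.{u}) (v : V) : Option (NI.{u} N × Bool) :=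
  if InO X v ∨ (∃ j, κ = Cx.C j ∧ X.P.ty (X.P.pc v) = Ty.K ∧ X.P.th v = j) ∨
      ((X.P.ty (X.P.pc v) = Ty.N ∨ X.P.ty (X.P.pc v) = Ty.B) ∧ κ = Cx.Q (X.P.pt v)) then none
  else some (⟨(X.P.pc v, ptx X v)⟩, X.P.sd v)

/-- the block of a node side -/
noncomputable def box (X : XD V N J) (κ : Cx.{u}) (p : NI.{u} N × Bool) : Option (BX X) :=
  if usd X κ p.1.down.1 p.1.down.2 then bx X p.1.down.1 p.2 else none

/-- the piece of a node -/
def prx (i : NI.{u} N) : ULift.{u} (Fin N) := ⟨i.down.1⟩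

/-- the same pieces with other labels; the sides of the pieces of type B are kept -/
structure SameX (X X' : XD V N J) : Prop where
  V0 : X'.P.V0 = X.P.V0
  pc : X'.P.pc = X.P.pc
  ty : X'.P.ty = X.P.ty
  rg : X'.P.rg = X.P.rg
  sd : ∀ v, X.P.ty (X.P.pc v) = Ty.B → X'.P.sd v = X.P.sd v
  sc : X'.sc = X.sc
  cq : X'.cq = X.cq
  Hv : X'.Hv = X.Hv

/-- the degrees of the classes -/
structure ShaX (πk : ℝ) (d : ℕ) (D : Cx.{u} → ℕ) : Prop where
  eC : ∀ i j, D (Cx.C i) = D (Cx.C j)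
  eQ : D (Cx.Q false) = D (Cx.Q true)
  C : ∀ j, |(D (Cx.C j) : ℝ) - πk * d| ≤ (1 - 3 * πk) / 10 ^ 4 * d
  Q : ∀ i, |(D (Cx.Q i) : ℝ) - (1 - 3 * πk) / 100 * d| ≤ (1 - 3 * πk) / 10 ^ 4 * d
  sum : ∑ κ, D κ = d

variable [Fintype V]

/-- The graphs of the classes. `deg`, `dex`, `exc`: exact degrees at `O` except at the sparse sets
`Ex κ`; `bal`: signed degree sums of the nodes; `shr`: shares for CLJ; `uO`, `uL`, `uS`: edges in no
class. -/
structure TsX (c t CC ρ1 MS : ℝ) (G : SimpleGraph V) (d : ℕ) (X : XD V N J) (D : Cx.{u} → ℕ)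
    (H : Cx.{u} → SimpleGraph V) (Ex : Cx.{u} → Finset V) : Prop where
  HG : ∀ κ v w, (H κ).Adj v w → G.Adj v w ∧ ¬ (Bkx G X).Adj v w
  dis : ∀ κ κ' v w, κ ≠ κ' → (H κ).Adj v w → ¬ (H κ').Adj v w
  typ : ∀ κ v w, (H κ).Adj v w → InO X v ∨ ndx X κ v ≠ none
  ExO : ∀ κ, Ex κ ⊆ OV X
  deg : ∀ κ, ∀ v ∈ OV X, v ∉ Ex κ → (nb (H κ) v).card = D κ
  dex : ∀ κ, ∀ v ∈ Ex κ, (nb (H κ) v).card + 1 = D κ
  exc : ∀ κ v, ((nb (H κ) v ∩ Ex κ).card : ℝ) ≤ ρ1 * D κ
  bal : ∀ κ i, |sdg (H κ) (ndx X κ) i| ≤ ρ1 * D κ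
  shr : ∀ κ, Shr G (Bkx G X) (H κ) d (blx X) (ndx X κ) (box X κ) c
    (c * t * d / 2) (t * d) (c * t * d ^ 2 / 2) (t * d ^ 2) (t * d) (t * d ^ 2) MS
  uO : ∀ v ∈ OV X, (((nb G v ∩ OV X).filter fun w => ∀ κ, ¬ (H κ).Adj v w).card : ℝ) ≤ CC
  uL : ∀ v, v ∉ OV X → (((nb G v).filter fun w => ¬ (Bkx G X).Adj v w ∧
    ∀ κ, ¬ (H κ).Adj v w).card : ℝ) ≤ (d : ℝ) ^ (9 / 10 : ℝ)
  uS : ∀ n, ((∑ v ∈ (pV X.P n).filter (fun v => v ∉ OV X), ((nb G v).filter fun w =>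
    ¬ (Bkx G X).Adj v w ∧ ∀ κ, ¬ (H κ).Adj v w).card : ℕ) : ℝ) ≤ (d : ℝ) ^ (19 / 10 : ℝ)

/-- the second property of `cq`: vertices of `V0` in a cluster have most neighbours among its light
vertices (from `Clx.inn`) -/
def V0n (G : SimpleGraph V) (d : ℕ) (X : XD V N J) : Prop :=
  ∀ x ∈ X.P.V0, ∀ q, X.cq x = some q → 5 / 8 * (d : ℝ) ≤
    (((nb G x).filter fun v => ¬ InO X v ∧ X.cq v = some q).card : ℝ)

end defs

/-- TSPLIT. The share `c` and the bound `CC` depend only on `πk`; `ρ1` error of the node sums and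
density of `Ex`, `θ1` bound for `θ'`, `η`; `rr` gives the cut constant of the parts from the one of
the pieces (`ρS`); `t` = scale of the shares for CLJ. -/
def Stmt_TSPLIT : Prop :=
  ∀ πk : ℝ, 1 / 4 ≤ πk → πk < 1 / 3 → ∃ c CC : ℝ, 0 < c ∧ c ≤ 1 ∧ 1 ≤ CC ∧
    ∀ C ρ1 MS : ℝ, 1 ≤ C → 0 < ρ1 → 1 ≤ MS → ∃ (θ1 : ℝ) (rr : ℝ → ℝ), 0 < θ1 ∧
    (∀ r, 0 < r → r ≤ 1 → 0 < rr r ∧ rr r ≤ r) ∧
    ∀ (g z θk η : ℝ) (M : ℕ), 0 < g → g ≤ 1 / 10 → 0 < z → z ≤ 1 / 10 → 0 < θk → θk ≤ 1 / 100 →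
    0 < η → η ≤ θ1 → ∃ T : Thr, T.Pos ∧
    ∀ (J : ℕ) (S : Fin J → Scl) (ρS : Fin J → ℝ) (c' : ℝ), (∀ s, Adm T (S s)) →
    (∀ s, 0 < ρS s ∧ ρS s ≤ 1 ∧ (S s).ρ = rr (ρS s)) → 0 < c' → ∃ d0 : ℕ,
    ∀ {V : Type u} [Fintype V] {N : ℕ} (G : SimpleGraph V) (d : ℕ) (X : XD V N J)
      (D : Cx.{u} → ℕ) (θ' t : ℝ), d0 ≤ d → θ' ≤ θ1 →
      PcD C g z θk θ' η ((d : ℝ) ^ (-c')) M S G d X →
      PcD C g z θk θ' η ((d : ℝ) ^ (-c')) M (fun s => { S s with ρ := ρS s }) G d X →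
      (∀ v ∈ X.Hv, InT X Ty.K v) → V0n G d X →
      ShaX πk d D → (d : ℝ) ^ (-(1 / 10) : ℝ) ≤ t → t ≤ 1 →
      ∃ (X' : XD V N J) (H : Cx.{u} → SimpleGraph V) (Ex : Cx.{u} → Finset V), SameX X X' ∧
        PcX C g z θk θ' η ((d : ℝ) ^ (-c')) M S G d X' ∧ TsX c t CC ρ1 MS G d X' D H Ex

end Pool.Agent.Work.MP_db9399_iv
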